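import Pool.Agent.H500.ED.Stm
import Pool.Agent.H199.HC.Cls

set_option autoImplicit false

/-!
# Project ED (helper500), part B2: the values of a Hecke character are in a number field (helper591)
-/

namespace Pool.Agent.H591.ED.VAL

open NumberField IsDedekindDomain
open Pool.Agent.H500.HC (InRay QBar ZBar jz)
open Pool.Agent.H500.TH (typB)
open Pool.Agent.H500.ED (IsHecke)

theorem fr_fin {E : Type} [Field E] [NumberField E] (f : E →ₐ[ℚ] QBar) :
    FiniteDimensional ℚ f.fieldRange :=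
  Module.Finite.of_surjective f.rangeRestrict.toLinearMap f.rangeRestrict_surjective

/-- the conjugates of `K` and finitely many elements are in a number field -/
theorem exF (K : Type) [Field K] [NumberField K] {T : Set QBar} (hT : T.Finite)
    (hTi : ∀ z ∈ T, IsIntegral ℤ z) :
    ∃ F : IntermediateField ℚ QBar, FiniteDimensional ℚ F ∧ (∀ (σ : K →+* QBar) (x : K), σ x ∈ F) ∧
      ∀ z ∈ T, z ∈ F := by
  have := hT.to_subtype
  have h1 : ∀ f : K →ₐ[ℚ] QBar, FiniteDimensional ℚ f.fieldRange := fun f => fr_fin f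
  have h2 : FiniteDimensional ℚ
      (⨆ f : K →ₐ[ℚ] QBar, f.fieldRange : IntermediateField ℚ QBar) :=
    IntermediateField.finiteDimensional_iSup_of_finite
  have h3 : FiniteDimensional ℚ (IntermediateField.adjoin ℚ T) :=
    IntermediateField.finiteDimensional_adjoin fun x hx => (hTi x hx).tower_top
  refine ⟨(⨆ f : K →ₐ[ℚ] QBar, f.fieldRange) ⊔ IntermediateField.adjoin ℚ T,
    IntermediateField.finiteDimensional_sup _ _, fun σ x => ?_, fun z hz => ?_⟩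
  · have h5 : (σ.toRatAlgHom).fieldRange ≤
        (⨆ f : K →ₐ[ℚ] QBar, f.fieldRange) ⊔ IntermediateField.adjoin ℚ T :=
      (le_iSup_of_le σ.toRatAlgHom le_rfl).trans le_sup_left
    exact h5 ⟨x, rfl⟩
  · exact (le_sup_right : IntermediateField.adjoin ℚ T ≤
      (⨆ f : K →ₐ[ℚ] QBar, f.fieldRange) ⊔ IntermediateField.adjoin ℚ T)
      (IntermediateField.subset_adjoin ℚ T hz)

theorem main : Pool.Agent.H500.ED.S_VAL := by
  intro K _ _ A B t ψ hA hBA hψ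
  obtain ⟨h, R, -, hR, hcls⟩ := Pool.Agent.H199.HC.Cls.main K A hA
  have hA0 : (A : 𝓞 K) ≠ 0 := by exact_mod_cast hA.ne'
  have hsA : Ideal.span {(A : 𝓞 K)} ≠ 0 := by
    rw [Ne, Ideal.zero_eq_bot, Ideal.span_singleton_eq_bot]
    exact hA0
  -- the finite set
  have hD : {P : Ideal (𝓞 K) | P ∣ Ideal.span {(A : 𝓞 K)}}.Finite := by
    have := UniqueFactorizationMonoid.fintypeSubtypeDvd (Ideal.span {(A : 𝓞 K)}) hsA
    have h1 : Finite {P : Ideal (𝓞 K) // P ∣ Ideal.span {(A : 𝓞 K)}} := Finite.of_fintype _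
    exact Set.finite_coe_iff.1 h1
  have hT : (((fun 𝔞 : Ideal (𝓞 K) => ((ψ 𝔞 : ZBar) : QBar)) '' (R : Set (Ideal (𝓞 K)))) ∪
      ((fun 𝔞 : Ideal (𝓞 K) => ((ψ 𝔞 : ZBar) : QBar)) ''
        {P : Ideal (𝓞 K) | P ∣ Ideal.span {(A : 𝓞 K)}})).Finite :=
    (R.finite_toSet.image _).union (hD.image _)
  obtain ⟨F, hF, hK, hFT⟩ := exF K hT (by
    rintro z (⟨𝔞, -, rfl⟩ | ⟨𝔞, -, rfl⟩)
    · exact (ψ 𝔞).2
    · exact (ψ 𝔞).2)
  have hFR : ∀ 𝔯 ∈ R, ((ψ 𝔯 : ZBar) : QBar) ∈ F := fun 𝔯 h𝔯 =>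
    hFT _ (Or.inl ⟨𝔯, h𝔯, rfl⟩)
  have hFA : ∀ P : Ideal (𝓞 K), P ∣ Ideal.span {(A : 𝓞 K)} → ((ψ P : ZBar) : QBar) ∈ F :=
    fun P hP => hFT _ (Or.inr ⟨P, hP, rfl⟩)
  -- the values of the type
  have htyp : ∀ x : 𝓞 K, ((typB t x : ZBar) : QBar) ∈ F := by
    intro x
    unfold typB
    rw [RingOfIntegers.coe_eq_algebraMap, map_prod]
    refine prod_mem fun σ _ => ?_
    rw [map_pow]
    exact pow_mem (hK σ (x : K)) _
  -- prime ideals
  have hprime : ∀ P : Ideal (𝓞 K), Prime P → ((ψ P : ZBar) : QBar) ∈ F := by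
    intro P hP
    have hP0 : P ≠ ⊥ := hP.ne_zero
    have hPp : P.IsPrime := (Ideal.prime_iff_isPrime hP0).1 hP
    have hPm : P.IsMaximal := hPp.isMaximal hP0
    by_cases hAP : Ideal.span {(A : 𝓞 K)} ≤ P
    · exact hFA P (Ideal.dvd_iff_le.2 hAP)
    · have hcop : IsCoprime P (Ideal.span {(A : 𝓞 K)}) := by
        rw [Ideal.isCoprime_iff_sup_eq]
        refine hPm.1.2 _ (lt_of_le_of_ne le_sup_left fun he => hAP ?_)
        rw [he]
        exact le_sup_right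
      obtain ⟨𝔯, h𝔯, x, hx, hxe⟩ := (hcls P hP0 hcop).2
      obtain ⟨hr0, hrc⟩ := hR 𝔯 h𝔯
      have hrB : IsCoprime 𝔯 (Ideal.span {(B : 𝓞 K)}) := by
        refine hrc.of_isCoprime_of_dvd_right ?_
        rw [Ideal.dvd_iff_le, Ideal.span_singleton_le_span_singleton]
        exact Nat.cast_dvd_cast hBA
      have hψr : ψ 𝔯 ≠ 0 := (hψ.cop 𝔯 hr0).2 hrB
      have e1 : ψ P * ψ 𝔯 ^ (h - 1) = typB t x := by
        rw [← hψ.typ x hx, ← hxe, map_mul, map_pow]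
      have e2 : ((ψ P : ZBar) : QBar) * ((ψ 𝔯 : ZBar) : QBar) ^ (h - 1) =
          ((typB t x : ZBar) : QBar) := by
        rw [← e1]
        simp only [RingOfIntegers.coe_eq_algebraMap, map_mul, map_pow]
      have h3 : ((ψ 𝔯 : ZBar) : QBar) ^ (h - 1) ≠ 0 := by
        refine pow_ne_zero _ fun h4 => hψr ?_
        exact RingOfIntegers.coe_eq_zero_iff.1 h4
      have e3 : ((ψ P : ZBar) : QBar) = ((typB t x : ZBar) : QBar) /
          ((ψ 𝔯 : ZBar) : QBar) ^ (h - 1) := by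
        rw [← e2, mul_div_cancel_right₀ _ h3]
      rw [e3]
      exact div_mem (htyp x) (pow_mem (hFR 𝔯 h𝔯) _)
  -- all ideals
  have hall : ∀ 𝔞 : Ideal (𝓞 K), ((ψ 𝔞 : ZBar) : QBar) ∈ F := by
    intro 𝔞
    refine UniqueFactorizationMonoid.induction_on_prime
      (P := fun 𝔞 : Ideal (𝓞 K) => ((ψ 𝔞 : ZBar) : QBar) ∈ F) 𝔞 ?_ ?_ ?_
    · rw [map_zero, RingOfIntegers.coe_eq_algebraMap, map_zero]
      exact zero_mem _
    · intro I hI
      rw [Ideal.isUnit_iff, ← Ideal.one_eq_top] at hI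
      rw [hI, map_one, RingOfIntegers.coe_eq_algebraMap, map_one]
      exact one_mem _
    · intro I P _ hP hI
      rw [map_mul, RingOfIntegers.coe_eq_algebraMap, map_mul]
      exact mul_mem (hprime P hP) hI
  have hNF : NumberField F := ⟨⟩
  refine ⟨F, inferInstance, hNF, algebraMap F QBar, fun 𝔞 => ?_⟩
  have hint : IsIntegral ℤ (⟨((ψ 𝔞 : ZBar) : QBar), hall 𝔞⟩ : F) := by
    rw [← isIntegral_algebraMap_iff (algebraMap F QBar).injective]
    exact (ψ 𝔞).2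
  refine ⟨⟨⟨((ψ 𝔞 : ZBar) : QBar), hall 𝔞⟩, hint⟩, ?_⟩
  apply RingOfIntegers.ext
  rfl

end Pool.Agent.H591.ED.VAL
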